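import Mathlib
import Pool.Agent.H6.TreeLike

namespace Pool.Agent.Results.MP_75f5df_co.Never

open Cardinal

/-- Any two vertices of `S` are joined by a walk inside `S`. -/
def Conn {V : Type} (G : SimpleGraph V) (S : Set V) : Prop :=
  ∀ a ∈ S, ∀ b ∈ S, ∃ w : G.Walk a b, ∀ c ∈ w.support, c ∈ S

/-- `S` induces a connected subgraph without a cut vertex of its own. -/
def NoCut {V : Type} (G : SimpleGraph V) (S : Set V) : Prop :=
  S.Nonempty ∧ Conn G S ∧ ∀ v ∈ S, Conn G (S \ {v})

/-- `B` is (the vertex set of) a block. -/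
def IsBlock {V : Type} (G : SimpleGraph V) (B : Set V) : Prop := Maximal (NoCut G) B

/-- `G` is the tree-like graph `T_{m,n}`. -/
def TreeLike {V : Type} (G : SimpleGraph V) (m n : Cardinal) : Prop :=
  G.Connected ∧ (∀ B, IsBlock G B → G.IsClique B ∧ #B = n) ∧
    ∀ v, #{B : Set V | IsBlock G B ∧ v ∈ B} = m

/-- The topology of pointwise convergence on the automorphism group (`V` discrete). -/
abbrev autTop {V : Type} (G : SimpleGraph V) : TopologicalSpace (G ≃g G) :=
  .induced (fun g => (g : V → V)) (@Pi.topologicalSpace V (fun _ => V) fun _ => ⊥)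

/-- Every continuous action on a nonempty compact Hausdorff space has an invariant Borel
probability measure. -/
def Amenable (Γ : Type) [Group Γ] [TopologicalSpace Γ] : Prop :=
  ∀ (X : Type) [TopologicalSpace X] [CompactSpace X] [T2Space X] [Nonempty X] [MulAction Γ X]
    [ContinuousSMul Γ X], ∃ μ : @MeasureTheory.Measure X (borel X), μ Set.univ = 1 ∧
      ∀ (g : Γ) (s : Set X), @MeasurableSet X (borel X) s → μ ((fun x => g • x) ⁻¹' s) = μ s

theorem result (m n : Cardinal) (hm : 2 ≤ m ∧ m ≤ ℵ₀) (hn : 2 ≤ n ∧ n ≤ ℵ₀)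
    (h : m = ℵ₀ ∨ n = ℵ₀) (V : Type) (G : SimpleGraph V) (hG : TreeLike G m n) :
    ¬ @Amenable (G ≃g G) _ (autTop G) :=
  Pool.Agent.H6.TreeLike.not_amenable hG hm.1 hn.1 (h.imp Eq.ge Eq.ge)

end Pool.Agent.Results.MP_75f5df_co.Never
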